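import Pool.Agent.H44.MinFacEx

/-!
# A union of minimal length sets of a reduced finitary power monoid that is not an interval
-/

namespace Pool.Agent.Results.MP_43520b_al.MinimalUnions

open Pool.Agent.H34.PowMon Pool.Agent.H44.MinFac Pool.Agent.H44.MinFacEx
open scoped Pointwise

/-- The set attached to a table. -/
def f (R : ℕ) : Set K := S (step 1 R)

lemma coe_prod (w : List (PFin K)) : ((w.prod : PFin K) : Set K) = (w.map Subtype.val).prod :=
  map_list_prod (PFin K).subtype w

lemma coe_prod_code {w : List (PFin K)} {c : List ℕ} (hc : ∀ R ∈ c, R ∈ tabs)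
    (h : c.map f = w.map Subtype.val) : ((w.prod : PFin K) : Set K) = S (pr c) := by
  rw [coe_prod, ← h, S_pr c hc]
  rfl

lemma four_or {w : List (PFin K)} (hw : ∀ a ∈ w, Irred a) (hl : w.length = 4) :
    ((w.prod : PFin K) : Set K) = S 123 ∨
      ∃ ix : List (Fin 4), ix.Nodup ∧ ix.length < 4 ∧
        (ix.map (fun i => w.get (i.cast hl.symm))).prod = w.prod := by
  obtain ⟨c, hc, h⟩ := exists_code w hw
  have hcl : c.length = 4 := by
    have := congrArg List.length h
    simpa [hl] using this
  match w, hl, c, hcl, h, hc with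
  | [A, B, C, D], hl, [a, b, c, d], _, h, hc =>
    have h4 := check4
    rw [List.all_eq_true] at h4
    have h4 := h4 a (hc a (by simp))
    rw [List.all_eq_true] at h4
    have h4 := h4 b (hc b (by simp))
    rw [List.all_eq_true] at h4
    have h4 := h4 c (hc c (by simp))
    rw [List.all_eq_true] at h4
    have h4 := h4 d (hc d (by simp))
    rw [ok4, Bool.or_eq_true] at h4
    rcases h4 with h4 | h4
    · left
      rw [coe_prod_code hc h, Nat.eq_of_beq_eq_true h4]
    · right
      rw [List.any_eq_true] at h4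
      obtain ⟨ix, hix, h5⟩ := h4
      have h5 := Nat.eq_of_beq_eq_true h5
      refine ⟨ix, (idx4_ok ix hix).1, (idx4_ok ix hix).2, ?_⟩
      apply Subtype.ext
      rw [coe_prod_code hc h, ← h5]
      apply coe_prod_code
      · intro R hR
        obtain ⟨i, -, rfl⟩ := List.mem_map.mp hR
        exact hc _ (List.get_mem _ _)
      · rw [List.map_map, List.map_map]
        apply List.map_congr_left
        intro i _
        simp only [List.map_cons, List.map_nil, List.cons.injEq, and_true] at h
        obtain ⟨h1, h2, h3, h4⟩ := h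
        fin_cases i
        · exact h1
        · exact h2
        · exact h3
        · exact h4

lemma three_or {w : List (PFin K)} (hw : ∀ a ∈ w, Irred a) (hl : w.length = 3) :
    ((w.prod : PFin K) : Set K) ≠ S 123 ∨
      ∃ ix : List (Fin 3), ix.Nodup ∧ ix.length < 3 ∧
        (ix.map (fun i => w.get (i.cast hl.symm))).prod = w.prod := by
  obtain ⟨c, hc, h⟩ := exists_code w hw
  have hcl : c.length = 3 := by
    have := congrArg List.length h
    simpa [hl] using this
  match w, hl, c, hcl, h, hc with
  | [A, B, C], hl, [a, b, c], _, h, hc =>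
    have h4 := check3
    rw [List.all_eq_true] at h4
    have h4 := h4 a (hc a (by simp))
    rw [List.all_eq_true] at h4
    have h4 := h4 b (hc b (by simp))
    rw [List.all_eq_true] at h4
    have h4 := h4 c (hc c (by simp))
    rw [ok3, Bool.or_eq_true] at h4
    rcases h4 with h4 | h4
    · left
      rw [coe_prod_code hc h]
      intro h5
      have h6 := S_inj (pr_lt _) (by norm_num) h5
      rw [h6] at h4
      simp at h4
    · right
      rw [List.any_eq_true] at h4
      obtain ⟨ix, hix, h5⟩ := h4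
      have h5 := Nat.eq_of_beq_eq_true h5
      refine ⟨ix, (idx3_ok ix hix).1, (idx3_ok ix hix).2, ?_⟩
      apply Subtype.ext
      rw [coe_prod_code hc h, ← h5]
      apply coe_prod_code
      · intro R hR
        obtain ⟨i, -, rfl⟩ := List.mem_map.mp hR
        exact hc _ (List.get_mem _ _)
      · rw [List.map_map, List.map_map]
        apply List.map_congr_left
        intro i _
        simp only [List.map_cons, List.map_nil, List.cons.injEq, and_true] at h
        obtain ⟨h1, h2, h3⟩ := h
        fin_cases i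
        · exact h1
        · exact h2
        · exact h3

/-- The exceptional element. -/
def X0 : PFin K := ⟨S 123, Set.toFinite _, by rw [mem_S]; rfl⟩

lemma eq_X0_of_four {X : PFin K} (h : 4 ∈ minLengths X) : X = X0 := by
  obtain ⟨w, hw, hl⟩ := h
  rcases four_or hw.1.1 hl with h | ⟨ix, h1, h2, h3⟩
  · apply Subtype.ext
    rw [← hw.1.2]
    exact h
  · exfalso
    refine not_min_of_idx (ix.map (Fin.cast hl.symm)) (h1.map (Fin.cast_injective _))
      (by simpa [hl] using h2) ?_ hw
    rw [List.map_map]
    exact h3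

lemma not_zero : 0 ∉ minLengths X0 := by
  rintro ⟨w, hw, hl⟩
  rw [List.length_eq_zero_iff] at hl
  subst hl
  have h1 : (1 : PFin K) = X0 := hw.1.2
  have h2 : S 1 = S 123 := by rw [S_one]; exact congrArg Subtype.val h1
  exact absurd (S_inj (by norm_num) (by norm_num) h2) (by norm_num)

lemma not_irred : ¬ Irred X0 := by
  intro h
  obtain ⟨R, hR, h1⟩ := irr_cases (irred_iff.mp h)
  have h2 := S_inj (atoms_lt R hR) (by norm_num : 123 < 128) h1
  revert h2
  revert R
  have : ∀ R ∈ tabs, step 1 R ≠ 123 := by decide +kernel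
  intro R hR _ h2
  exact this R hR h2

lemma not_one : 1 ∉ minLengths X0 := by
  rintro ⟨w, hw, hl⟩
  obtain ⟨a, rfl⟩ := List.length_eq_one_iff.mp hl
  have h1 : a = X0 := by simpa using hw.1.2
  exact not_irred (h1 ▸ hw.1.1 a (by simp))

lemma not_three : 3 ∉ minLengths X0 := by
  rintro ⟨w, hw, hl⟩
  rcases three_or hw.1.1 hl with h | ⟨ix, h1, h2, h3⟩
  · exact h (congrArg Subtype.val hw.1.2)
  · refine not_min_of_idx (ix.map (Fin.cast hl.symm)) (h1.map (Fin.cast_injective _))
      (by simpa [hl] using h2) ?_ hw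
    rw [List.map_map]
    exact h3

lemma le_four {n : ℕ} (h : n ∈ minLengths X0) : n ≤ 4 := by
  by_contra hn
  push Not at hn
  obtain ⟨w, hw, rfl⟩ := h
  have hl : (w.take 4).length = 4 := by simp; omega
  have hsub : (w.take 4).Sublist w := List.take_sublist 4 w
  rcases four_or (fun a ha => hw.1.1 a (hsub.subset ha)) hl with h | ⟨ix, h1, h2, h3⟩
  · refine not_min_of_subperm hsub.subperm (by omega) ?_ hw
    rw [hw.1.2]
    exact Subtype.ext h
  · have hw2 : w = w.take 4 ++ w.drop 4 := (List.take_append_drop 4 w).symm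
    set v := w.take 4 with hv
    have hs : (ix.map (fun i => v.get (i.cast hl.symm))).Subperm v := by
      have h4 : (ix.map (Fin.cast hl.symm)).Subperm (List.finRange v.length) :=
        List.subperm_of_subset (h1.map (Fin.cast_injective _)) (fun i _ => List.mem_finRange i)
      have h6 : (List.finRange v.length).map v.get = v := List.map_getElem_finRange v
      obtain ⟨l, hl1, hl2⟩ := h4
      refine ⟨l.map v.get, ?_, ?_⟩
      · have := hl1.map v.get
        rw [List.map_map] at this
        exact this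
      · have := hl2.map v.get
        rw [h6] at this
        exact this
    refine not_min_of_subperm (v := ix.map (fun i => v.get (i.cast hl.symm)) ++ w.drop 4)
      (w := w) (X := X0) ?_ ?_ ?_ hw
    · conv_rhs => rw [hw2]
      exact (List.subperm_append_right _).mpr hs
    · conv_rhs => rw [hw2]
      simp only [List.length_append, List.length_map]
      omega
    · conv_rhs => rw [hw2]
      rw [List.prod_append, List.prod_append, h3]

/-- The element of the power monoid with a given mask. -/
def E (m : ℕ) (h : (S m).Finite ∧ (1 : K) ∈ S m) : PFin K := ⟨S m, h⟩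

lemma irred_pair_mask {m : ℕ} (h : (S m).Finite ∧ (1 : K) ∈ S m)
    (hm : ∃ x : K, x ≠ 1 ∧ S m = {1, x}) : Irred (E m h) := by
  rw [irred_iff]
  obtain ⟨x, hx, hS⟩ := hm
  change Irr (S m)
  rw [hS]
  exact irr_pair hx

lemma S9 : S 9 = {1, ⟨3⟩} := by
  ext x
  have : ∀ i : Fin 7, Nat.testBit 9 i.val = true ↔ (i = 0 ∨ i = 3) := by decide
  rw [mem_S, this]
  simp only [Set.mem_insert_iff, Set.mem_singleton_iff, K.ext_iff]
  rfl

lemma S33 : S 33 = {1, ⟨5⟩} := by
  ext x
  have : ∀ i : Fin 7, Nat.testBit 33 i.val = true ↔ (i = 0 ∨ i = 5) := by decide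
  rw [mem_S, this]
  simp only [Set.mem_insert_iff, Set.mem_singleton_iff, K.ext_iff]
  rfl

lemma S65 : S 65 = {1, ⟨6⟩} := by
  ext x
  have : ∀ i : Fin 7, Nat.testBit 65 i.val = true ↔ (i = 0 ∨ i = 6) := by decide
  rw [mem_S, this]
  simp only [Set.mem_insert_iff, Set.mem_singleton_iff, K.ext_iff]
  rfl

lemma fin_one (m : ℕ) (h : m.testBit 0 = true) : (S m).Finite ∧ (1 : K) ∈ S m :=
  ⟨Set.toFinite _, h⟩

/-- The element `{1, 3}`. -/
def P3 : PFin K := E 9 (fin_one 9 rfl)
/-- The element `{1, 5}`. -/
def P5 : PFin K := E 33 (fin_one 33 rfl)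
/-- The element `{1, 6}`. -/
def P6 : PFin K := E 65 (fin_one 65 rfl)
/-- The element `{1, 3, 5, 6}`. -/
def Q : PFin K := E 105 (fin_one 105 rfl)

lemma irred_P3 : Irred P3 := irred_pair_mask _ ⟨⟨3⟩, by decide, S9⟩
lemma irred_P5 : Irred P5 := irred_pair_mask _ ⟨⟨5⟩, by decide, S33⟩
lemma irred_P6 : Irred P6 := irred_pair_mask _ ⟨⟨6⟩, by decide, S65⟩

lemma checkQ : ((List.range 128).all fun b => (List.range 128).all fun c =>
    !(b.testBit 0 && c.testBit 0 && (mulM b c).beq 105) || b.beq 105 || c.beq 105) = true := by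
  decide +kernel

lemma mulM_lt (a b : ℕ) : mulM a b < 128 := by
  change mulM a b < 2 ^ 7
  apply Nat.lt_pow_two_of_testBit
  intro i hi
  rw [Bool.eq_false_iff]
  intro h
  rw [mulM, testBit_fo] at h
  obtain ⟨j, -, h⟩ := h
  rw [testBit_fo] at h
  obtain ⟨k, -, h⟩ := h
  rw [Nat.testBit_two_pow, decide_eq_true_eq] at h
  have := (T j k).2
  omega

lemma irred_Q : Irred Q := by
  rw [irred_iff]
  refine ⟨Set.toFinite _, (fin_one 105 rfl).2, ?_, ?_⟩
  · intro h
    change S 105 = 1 at h
    rw [← S_one] at h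
    exact absurd (S_inj (by norm_num) (by norm_num) h) (by norm_num)
  · intro B C hB hC hBC
    obtain ⟨b, hb, rfl⟩ := S_surj B
    obtain ⟨c, hc, rfl⟩ := S_surj C
    change S b * S c = S 105 at hBC
    rw [← S_mul] at hBC
    have hlt := mulM_lt b c
    have h1 := S_inj hlt (by norm_num) hBC
    have h2 := checkQ
    rw [List.all_eq_true] at h2
    have h2 := h2 b (List.mem_range.mpr hb)
    rw [List.all_eq_true] at h2
    have h2 := h2 c (List.mem_range.mpr hc)
    have hb0 : b.testBit 0 = true := hB
    have hc0 : c.testBit 0 = true := hC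
    rw [hb0, hc0, h1] at h2
    simp only [Bool.and_self, Bool.or_eq_true, Bool.not_eq_true'] at h2
    rcases h2 with (h2 | h2) | h2
    · simp at h2
    · left; rw [Nat.eq_of_beq_eq_true h2]; rfl
    · right; rw [Nat.eq_of_beq_eq_true h2]; rfl

lemma prod_two : Q * P3 = X0 := by
  apply Subtype.ext
  change S 105 * S 9 = S 123
  rw [← S_mul]
  have : mulM 105 9 = 123 := by decide +kernel
  rw [this]

lemma two_mem : 2 ∈ minLengths X0 := by
  refine ⟨[Q, P3], ⟨⟨?_, by simpa using prod_two⟩, ?_⟩, rfl⟩
  · intro a ha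
    simp only [List.mem_cons, List.not_mem_nil, or_false] at ha
    rcases ha with rfl | rfl
    · exact irred_Q
    · exact irred_P3
  · rintro ⟨v, ⟨hv1, hv2⟩, hv3, -⟩
    match v, hv1, hv2, hv3 with
    | [], _, h, _ =>
      have h2 : S 1 = S 123 := by rw [S_one]; exact congrArg Subtype.val h
      exact absurd (S_inj (by norm_num) (by norm_num) h2) (by norm_num)
    | [a], h1, h2, _ =>
      have h3 : a = X0 := by simpa using h2
      exact not_irred (h3 ▸ h1 a (by simp))
    | _ :: _ :: _, _, _, h3 => simp at h3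

/-- Words of at most three letters among the masks 9, 33, 65 never give 123. -/
lemma check_small : ∀ a ∈ [9, 33, 65], mulM 1 a ≠ 123 ∧ ∀ b ∈ [9, 33, 65],
    mulM (mulM 1 a) b ≠ 123 ∧ ∀ c ∈ [9, 33, 65], mulM (mulM (mulM 1 a) b) c ≠ 123 := by
  decide +kernel

lemma four_mem : 4 ∈ minLengths X0 := by
  refine ⟨[P5, P6, P3, P3], ⟨⟨?_, ?_⟩, ?_⟩, rfl⟩
  · intro a ha
    simp only [List.mem_cons, List.not_mem_nil, or_false] at ha
    rcases ha with rfl | rfl | rfl | rfl
    · exact irred_P5
    · exact irred_P6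
    · exact irred_P3
    · exact irred_P3
  · apply Subtype.ext
    rw [coe_prod]
    change S 33 * (S 65 * (S 9 * (S 9 * 1))) = S 123
    rw [mul_one, ← S_mul, ← S_mul, ← S_mul]
    have : mulM 33 (mulM 65 (mulM 9 9)) = 123 := by decide +kernel
    rw [this]
  · rintro ⟨v, ⟨hv1, hv2⟩, hv3, τ, -, hτ⟩
    have hmem : ∀ a ∈ v, ∃ m ∈ [9, 33, 65], (a : Set K) = S m := by
      intro a ha
      obtain ⟨i, rfl⟩ := List.get_of_mem ha
      have h1 := hτ i
      rw [equivalent_iff] at h1
      rw [h1]
      have h2 : ∀ b ∈ [P5, P6, P3, P3], ∃ m ∈ [9, 33, 65], (b : Set K) = S m := by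
        intro b hb
        simp only [List.mem_cons, List.not_mem_nil, or_false] at hb
        rcases hb with rfl | rfl | rfl | rfl
        · exact ⟨33, by simp, rfl⟩
        · exact ⟨65, by simp, rfl⟩
        · exact ⟨9, by simp, rfl⟩
        · exact ⟨9, by simp, rfl⟩
      exact h2 _ (List.get_mem _ _)
    have hv4 := congrArg Subtype.val hv2
    rw [coe_prod] at hv4
    change _ = S 123 at hv4
    match v, hv3, hmem, hv4 with
    | [], _, _, h =>
      have h2 : S 1 = S 123 := by rw [S_one]; exact h
      exact absurd (S_inj (by norm_num) (by norm_num) h2) (by norm_num)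
    | [a], _, hm, h =>
      obtain ⟨x, hx, hax⟩ := hm a (by simp)
      simp only [List.map_cons, List.map_nil, List.prod_cons, List.prod_nil, mul_one, hax] at h
      rw [← one_mul (S x), ← S_one, ← S_mul] at h
      exact (check_small x hx).1 (S_inj (mulM_lt _ _) (by norm_num) h)
    | [a, b], _, hm, h =>
      obtain ⟨x, hx, hax⟩ := hm a (by simp)
      obtain ⟨y, hy, hby⟩ := hm b (by simp)
      simp only [List.map_cons, List.map_nil, List.prod_cons, List.prod_nil, mul_one, hax,
        hby] at h
      rw [← one_mul (S x), ← S_one, ← S_mul, ← S_mul] at h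
      exact ((check_small x hx).2 y hy).1 (S_inj (mulM_lt _ _) (by norm_num) h)
    | [a, b, c], _, hm, h =>
      obtain ⟨x, hx, hax⟩ := hm a (by simp)
      obtain ⟨y, hy, hby⟩ := hm b (by simp)
      obtain ⟨z, hz, hcz⟩ := hm c (by simp)
      simp only [List.map_cons, List.map_nil, List.prod_cons, List.prod_nil, mul_one, hax,
        hby, hcz] at h
      rw [← mul_assoc, ← one_mul (S x), ← S_one, ← S_mul, ← S_mul, ← S_mul] at h
      exact ((check_small x hx).2 y hy).2 z hz (S_inj (mulM_lt _ _) (by norm_num) h)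
    | _ :: _ :: _ :: _ :: _, h, _, _ => simp at h; omega

/-- There is a monoid with seven elements for which the union of all minimal length sets
containing `4` is `{2, 4}`, which is not an interval. -/
theorem result : ∃ (H : Type) (_ : Monoid H), Nat.card H = 7 ∧
    unionMinLengths (PFin H) 4 = {2, 4} ∧ ¬ IsInterval (unionMinLengths (PFin H) 4) := by
  have key : unionMinLengths (PFin K) 4 = {2, 4} := by
    ext n
    constructor
    · rintro ⟨X, h4, hn⟩
      have hX := eq_X0_of_four h4
      subst hX
      have h1 := le_four hn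
      have h2 : n ≠ 0 := fun h => not_zero (h ▸ hn)
      have h3 : n ≠ 1 := fun h => not_one (h ▸ hn)
      have h4 : n ≠ 3 := fun h => not_three (h ▸ hn)
      simp only [Set.mem_insert_iff, Set.mem_singleton_iff]
      omega
    · rintro (rfl | rfl)
      · exact ⟨X0, four_mem, two_mem⟩
      · exact ⟨X0, four_mem, four_mem⟩
  refine ⟨K, inferInstance, ?_, key, ?_⟩
  · rw [Nat.card_congr equivFin]; simp
  · rw [key]
    rintro ⟨a, b, h⟩
    have h2 : (2 : ℕ) ∈ ({2, 4} : Set ℕ) := by simp
    have h4 : (4 : ℕ) ∈ ({2, 4} : Set ℕ) := by simp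
    have h3 : (3 : ℕ) ∉ ({2, 4} : Set ℕ) := by simp
    rw [h] at h2 h3 h4
    apply h3
    refine ⟨h2.1.trans ?_, le_trans ?_ h4.2⟩
    · exact_mod_cast (by norm_num : (2 : ℕ) ≤ 3)
    · exact_mod_cast (by norm_num : (3 : ℕ) ≤ 4)

end Pool.Agent.Results.MP_43520b_al.MinimalUnions
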