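import Pool.Agent.H34.PowMonFive

/-!
# Unions of length sets in reduced finitary power monoids are intervals
-/

namespace Pool.Agent.Results.MP_43520b_al.UnionsOfLengths

open scoped Pointwise
open Set Pool.Agent.H34.PowMon

lemma zero_not_mem {H : Type*} [Monoid H] {k : ℕ} (hk : 1 ≤ k) : 0 ∉ unionLengths (PFin H) k := by
  intro h
  obtain ⟨X, h1, h2⟩ := mem_unionLengths_iff.mp h
  rw [len_zero h2] at h1
  have := len_one_iff h1
  omega

lemma interval_ge (s : Set ℕ) (a : ℕ) (h : ∀ n, n ∈ s ↔ a ≤ n) : IsInterval s := by
  refine ⟨a, ⊤, ?_⟩
  ext n
  rw [h]
  simp

/-- For every monoid `H` and every `k ≥ 1` the set `U_k` of the reduced finitary power monoid of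
`H` is an interval. -/
theorem result : ∀ (H : Type*) [Monoid H] (k : ℕ), 1 ≤ k →
    IsInterval (unionLengths (PFin H) k) := by
  intro H _ k hk
  by_cases htriv : ∀ x : H, x = 1
  · -- trivial monoid
    refine ⟨1, 0, ?_⟩
    ext n
    simp only [mem_unionLengths_iff]
    constructor
    · rintro ⟨X, hX, -⟩
      exfalso
      obtain ⟨w, hw, -, hl⟩ := hX
      cases w with
      | nil => simp at hl; omega
      | cons A w =>
        obtain ⟨t, -, ht⟩ := exists_ne_one_of_irr (hw A (by simp))
        exact ht (htriv t)
    · rintro ⟨h1, h2⟩
      exfalso
      have := h1.trans h2
      simp at this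
  push Not at htriv
  obtain ⟨x₀, hx₀⟩ := htriv
  by_cases hH : ∀ x : H, x ≠ 1 → x * x ≠ x ∧ x * x ≠ 1
  · rcases Nat.eq_or_lt_of_le hk with rfl | hk2
    · -- `k = 1`
      refine ⟨1, 1, ?_⟩
      ext n
      rw [mem_unionLengths_iff]
      constructor
      · rintro ⟨X, h1, h2⟩
        have := len_eq_one_of_irr hH (len_one h1) h2
        subst this
        simp
      · rintro ⟨h1, h2⟩
        have h3 : n = 1 := by
          have h1' : 1 ≤ n := by exact_mod_cast h1
          have h2' : n ≤ 1 := by exact_mod_cast h2
          omega
        subst h3
        exact ⟨{1, x₀}, (irr_pair hx₀).len, (irr_pair hx₀).len⟩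
    · have hk2 : 2 ≤ k := hk2
      have h0 := zero_not_mem (H := H) hk
      have h1 : 1 ∉ unionLengths (PFin H) k := by
        intro h
        obtain ⟨X, hX1, hX2⟩ := mem_unionLengths_iff.mp h
        have := len_eq_one_of_irr hH (len_one hX2) hX1
        omega
      rcases monoid_case hH hx₀ with hall | ⟨h23, h3, hge3⟩
      · -- everything at least two
        apply interval_ge _ 2
        intro n
        constructor
        · intro hn
          by_contra hlt
          have : n = 0 ∨ n = 1 := by omega
          rcases this with rfl | rfl
          · exact h0 hn
          · exact h1 hn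
        · intro hn
          rw [mem_unionLengths_iff]
          rcases Nat.le_total k n with hkn | hnk
          · obtain ⟨X, hX2, hXn⟩ := hall (n - k + 2) (by omega)
            refine ⟨X * {1, x₀} ^ (k - 2), ?_, ?_⟩
            · have := hX2.mul ((irr_pair hx₀).len_pow (k - 2))
              convert this using 1
              omega
            · have := hXn.mul ((irr_pair hx₀).len_pow (k - 2))
              convert this using 1
              omega
          · obtain ⟨X, hX2, hXk⟩ := hall (k - n + 2) (by omega)
            refine ⟨X * {1, x₀} ^ (n - 2), ?_, ?_⟩
            · have := hXk.mul ((irr_pair hx₀).len_pow (n - 2))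
              convert this using 1
              omega
            · have := hX2.mul ((irr_pair hx₀).len_pow (n - 2))
              convert this using 1
              omega
      · rcases Nat.eq_or_lt_of_le hk2 with rfl | hk3
        · -- `k = 2`
          refine ⟨2, 3, ?_⟩
          ext n
          rw [mem_unionLengths_iff]
          constructor
          · intro h
            rcases h23 n h with rfl | rfl
            · exact ⟨le_rfl, by exact_mod_cast (by norm_num : (2 : ℕ) ≤ 3)⟩
            · exact ⟨by exact_mod_cast (by norm_num : (2 : ℕ) ≤ 3), le_rfl⟩
          · rintro ⟨h4, h5⟩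
            have h4' : 2 ≤ n := by exact_mod_cast h4
            have h5' : n ≤ 3 := by exact_mod_cast h5
            have : n = 2 ∨ n = 3 := by omega
            rcases this with rfl | rfl
            · obtain ⟨X, hX, -⟩ := h3
              exact ⟨X, hX, hX⟩
            · exact h3
        · have hk3 : 3 ≤ k := hk3
          by_cases h2 : 2 ∈ unionLengths (PFin H) k
          · apply interval_ge _ 2
            intro n
            constructor
            · intro hn
              by_contra hlt
              have : n = 0 ∨ n = 1 := by omega
              rcases this with rfl | rfl
              · exact h0 hn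
              · exact h1 hn
            · intro hn
              rcases Nat.eq_or_lt_of_le hn with rfl | hn3
              · exact h2
              · exact mem_unionLengths_iff.mpr (hge3 k hk3 n hn3)
          · apply interval_ge _ 3
            intro n
            constructor
            · intro hn
              by_contra hlt
              have : n = 0 ∨ n = 1 ∨ n = 2 := by omega
              rcases this with rfl | rfl | rfl
              · exact h0 hn
              · exact h1 hn
              · exact h2 hn
            · intro hn
              exact mem_unionLengths_iff.mpr (hge3 k hk3 n hn)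
  · -- there is `x ≠ 1` with `x * x = x` or `x * x = 1`
    push Not at hH
    obtain ⟨x, hx, hxx⟩ := hH
    have hsq : ({1, x} : Set H) * {1, x} = {1, x} := by
      refine Subset.antisymm ?_ (subset_mul_left (by simp))
      rintro _ ⟨a, ha, b, hb, rfl⟩
      rcases ha with rfl | ha
      · simpa using hb
      · rw [mem_singleton_iff.mp ha]
        rcases hb with rfl | hb
        · simp
        · rw [mem_singleton_iff.mp hb]
          by_cases h : x * x = x
          · simp [h]
          · simp [hxx h]
    have hall : ∀ n, 1 ≤ n → Len ({1, x} : Set H) n := by
      intro n hn
      have h := (irr_pair hx).len.mul ((irr_pair hx).len_pow (n - 1))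
      rw [absorb_right_pow hsq] at h
      convert h using 1
      omega
    apply interval_ge _ 1
    intro n
    constructor
    · intro hn
      by_contra hlt
      have : n = 0 := by omega
      subst this
      exact zero_not_mem hk hn
    · intro hn
      exact mem_unionLengths_iff.mpr ⟨_, hall k hk, hall n hn⟩

end Pool.Agent.Results.MP_43520b_al.UnionsOfLengths
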